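import Pool.Agent.Helper15.RK.GoalsF
import Pool.Agent.Helper9.RK.ParK
import Pool.Agent.Helper95.RK.Basics
import Pool.Agent.Helper97.RK.FRA1

/-! # Packet FRF: the leaf metric in foliated charts -/

open Complex Metric Set Filter Topology MeasureTheory
open scoped ContDiff ComplexConjugate ComplexOrder Manifold Matrix

namespace Pool.Agent.Helper45.RK

open Pool.Agent.Helper95.Lin Pool.Agent.Helper16.Abund Pool.Agent.Helper92.Orb
  Pool.Agent.Helper10.SP Pool.Agent.Helper95.RK Pool.Agent.Helper15.RK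

universe u v

section basics

variable {n m : ℕ}

theorem Dv_const (i : Fin n) (f : Cn n → ℂ) (x : Cn n) :
    Dv (fun _ => (Pi.single i 1 : Cn n)) f x = cd i f x := by
  unfold Dv
  rw [Finset.sum_eq_single i]
  · simp
  · intro j _ hj
    simp [hj]
  · intro h
    exact absurd (Finset.mem_univ i) h

theorem Dvb_const (i : Fin n) (f : Cn n → ℂ) (x : Cn n) :
    Dvb (fun _ => (Pi.single i 1 : Cn n)) f x = cdb i f x := by
  unfold Dvb
  rw [Finset.sum_eq_single i]
  · simp
  · intro j _ hj
    simp [hj]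
  · intro h
    exact absurd (Finset.mem_univ i) h

/-- both Wirtinger derivatives vanish: the real derivatives vanish -/
theorem fderiv_zero_of_cd {f : Cn n → ℂ} {x : Cn n} {i : Fin n} (h1 : cd i f x = 0)
    (h2 : cdb i f x = 0) : fderiv ℝ f x (Pi.single i 1) = 0 ∧ fderiv ℝ f x (Pi.single i I) = 0 := by
  unfold cd at h1
  unfold cdb at h2
  have h3 : fderiv ℝ f x (Pi.single i 1) = 0 := by
    have : 2 * fderiv ℝ f x (Pi.single i 1) = 0 := by linear_combination h1 + h2
    simpa using this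
  refine ⟨h3, ?_⟩
  have h4 : 2 * I * fderiv ℝ f x (Pi.single i I) = 0 := by linear_combination h2 - h1
  simpa using h4

theorem fderiv_det_zero {A : Cn n → Matrix (Fin m) (Fin m) ℂ} {x u : Cn n}
    (hd : ∀ i j, DifferentiableAt ℝ (fun y => A y i j) x)
    (hz : ∀ i j, fderiv ℝ (fun y => A y i j) x u = 0) :
    fderiv ℝ (fun y => (A y).det) x u = 0 := by
  have h1 : HasFDerivAt (fun y => ∑ σ : Equiv.Perm (Fin m), Equiv.Perm.sign σ •
      ∏ i, A y (σ i) i) (∑ σ : Equiv.Perm (Fin m), Equiv.Perm.sign σ •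
      ∑ i, (∏ j ∈ Finset.univ.erase i, A x (σ j) j) • fderiv ℝ (fun y => A y (σ i) i) x) x := by
    refine HasFDerivAt.fun_sum fun σ _ => ?_
    refine HasFDerivAt.const_smul ?_ (Equiv.Perm.sign σ)
    exact HasFDerivAt.finsetProd fun i _ => (hd (σ i) i).hasFDerivAt
  have h2 : (fun y => (A y).det) = fun y => ∑ σ : Equiv.Perm (Fin m), Equiv.Perm.sign σ •
      ∏ i, A y (σ i) i := by
    funext y
    exact Matrix.det_apply (A y)
  rw [h2, h1.fderiv]
  simp [hz]

theorem contDiffOn_adj {A : Cn n → Matrix (Fin m) (Fin m) ℂ} {W : Set (Cn n)}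
    (hA : ∀ i j, ContDiffOn ℝ ∞ (fun x => A x i j) W) (i j : Fin m) :
    ContDiffOn ℝ ∞ (fun x => (A x).adjugate i j) W := by
  have h1 : (fun x => (A x).adjugate i j) = fun x =>
      ((A x).updateRow j (Pi.single i 1)).det := by
    funext x
    exact Matrix.adjugate_apply _ _ _
  rw [h1]
  refine Pool.Agent.Helper97.RK.sm_det fun a c => ?_
  by_cases ha : a = j
  · subst ha
    simp only [Matrix.updateRow_self]
    exact contDiffOn_const
  · simp only [Matrix.updateRow_ne ha]
    exact hA a c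

theorem contDiffOn_inv {A : Cn n → Matrix (Fin m) (Fin m) ℂ} {W : Set (Cn n)}
    (hA : ∀ i j, ContDiffOn ℝ ∞ (fun x => A x i j) W) (hd : ∀ x ∈ W, (A x).det ≠ 0)
    (i j : Fin m) : ContDiffOn ℝ ∞ (fun x => (A x)⁻¹ i j) W := by
  have h1 : (fun x => (A x)⁻¹ i j) = fun x => ((A x).det)⁻¹ * (A x).adjugate i j := by
    funext x
    rw [Matrix.inv_def, Matrix.smul_apply, Ring.inverse_eq_inv', smul_eq_mul]
  rw [h1]
  exact ((Pool.Agent.Helper97.RK.sm_det hA).inv hd).mul (contDiffOn_adj hA i j)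

theorem cdb_sum (hWIRT : S_WIRT) {W : Set (Cn n)} (hWo : IsOpen W) {ι : Type*} (s : Finset ι)
    {f : ι → Cn n → ℂ} (hf : ∀ i ∈ s, ContDiffOn ℝ ∞ (f i) W) (l : Fin n) {x : Cn n}
    (hx : x ∈ W) : cdb l (fun y => ∑ i ∈ s, f i y) x = ∑ i ∈ s, cdb l (f i) x := by
  classical
  induction s using Finset.induction_on with
  | empty => simp [cdb]
  | insert a s ha ih =>
    simp only [Finset.sum_insert ha]
    have h1 : ∀ i ∈ s, ContDiffOn ℝ ∞ (f i) W := fun i hi => hf i (Finset.mem_insert_of_mem hi)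
    rw [((hWIRT W hWo (f a) (fun y => ∑ i ∈ s, f i y) (hf a (Finset.mem_insert_self a s))
      (ContDiffOn.sum fun i hi => h1 i hi)).2.1 l x hx).2, ih h1]

end basics

theorem frf (hWIRT : S_WIRT) (hLMF : S_LMF) (hKFB : S_KFB) (hDERK : S_DERK)
    (hFRD : S_FRD.{u, v}) : S_FRF.{u, v} := by
  intro b k G M _ _ _ _ _ _ _ h g v hk D hF U Δ ψ hU hΔ hψ
  have hWo : IsOpen (prodK U Δ) := isOpen_prodK hU hΔ
  set W := prodK U Δ with hW
  set Φ := lpot (b + k) v ψ with hΦ
  have hsm : ContDiffOn ℝ ∞ Φ W := D.met.smooth _ _ hψ.1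
  have hps : ∀ x ∈ W, ∀ e, 0 ≤ lev Φ x e := fun x hx => (D.rank _ _ hψ.1 x hx).1
  obtain ⟨l1, l2, l3, -⟩ := hLMF W hWo Φ hsm
  set e : Fin k → Cn (b + k) → Cn (b + k) := fun α _ => ef b α with he
  set w : Fin b → Cn (b + k) := fun i => Pi.single (Fin.castAdd k i) 1 with hw
  have hdec : ∀ e' : Cn (b + k), base e' = 0 → e' = ∑ α, fib e' α • ef b α := by
    intro e' he'
    apply ext_base_fib
    · rw [he']
      have : base (∑ α, fib e' α • ef b α) = ∑ α, fib e' α • base (ef b α) := by
        have h2 := map_sum (bsL b k) (fun α => fib e' α • ef b α) Finset.univ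
        simp only [map_smul, bsL_apply] at h2
        exact h2
      rw [this]
      simp
    · have : fib (∑ α, fib e' α • ef b α) = ∑ α, fib e' α • fib (ef b α) := by
        have h2 := map_sum (fbL b k) (fun α => fib e' α • ef b α) Finset.univ
        simp only [map_smul, fbL_apply] at h2
        exact h2
      rw [this]
      funext i
      rw [Finset.sum_apply, Finset.sum_eq_single i]
      · simp
      · intro j _ hj
        simp [hj.symm]
      · intro h
        exact absurd (Finset.mem_univ i) h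
  have hfr : KFr Φ W (fbL b k).toLinearMap w e := by
    refine ⟨hWo, hsm, hps, fun α => contDiffOn_const, fun x _ α => ?_, fun x hx α j => ?_,
      fun x hx e' h0 => ?_, ?_, fun i => ?_⟩
    · exact fib_ef α
    · have h1 : lev Φ x (ef b α) = 0 := (hψ.2 x hx _).2 (base_ef α)
      have h2 : (LM Φ x).PosSemidef := Pool.Agent.Helper97.RK.psd_of_kfr hLMF hWo hsm hps hx
      have h3 : star (ef b α) ⬝ᵥ ((LM Φ x)ᵀ *ᵥ (ef b α)) = 0 := by
        have h4 := l3 x hx (ef b α)
        rw [h1] at h4
        have h5 : star (ef b α) ⬝ᵥ ((LM Φ x)ᵀ *ᵥ (ef b α)) = hermi (LM Φ x) (ef b α) (ef b α) := by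
          simp only [dotProduct, Matrix.mulVec, Matrix.transpose_apply, hermi, Finset.mul_sum,
            Pi.star_apply, RCLike.star_def]
          rw [Finset.sum_comm]
          refine Finset.sum_congr rfl (fun i _ => Finset.sum_congr rfl (fun j _ => ?_))
          ring
        rw [h5, ← h4]
        simp
      have h6 := (h2.transpose.dotProduct_mulVec_zero_iff (ef b α)).1 h3
      have h7 := congrFun h6 j
      simpa [Matrix.mulVec, dotProduct, Matrix.transpose_apply] using h7
    · exact hdec e' ((hψ.2 x hx e').1 h0)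
    · have h1 : LinearIndependent ℂ (fun i : Fin (b + k) => (Pi.single i 1 : Cn (b + k))) := by
        have := (Pi.basisFun ℂ (Fin (b + k))).linearIndependent
        convert this with i
        simp
      exact h1.comp _ (Fin.castAdd_injective b k)
    · funext j
      have : Fin.natAdd b j ≠ Fin.castAdd k i := by
        intro h
        have := congrArg Fin.val h
        simp at this
        omega
      show (Pi.single (Fin.castAdd k i) (1 : ℂ) : Cn (b + k)) (Fin.natAdd b j) = 0
      simp [this]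
  obtain ⟨-, hfrd⟩ := hFRD hk D hF W ψ hψ.1 W _ _ _ hfr Subset.rfl
  have hPs : ∀ i j, ContDiffOn ℝ ∞ (fun x => pm (b + k) g ψ x i j) W :=
    fun i j => Pool.Agent.Helper9.RK.pm_smooth (hF.1.2 W ψ hψ.1.1) i j
  have hPp : ∀ x ∈ W, (pm (b + k) g ψ x).PosDef := fun x hx =>
    Pool.Agent.Helper9.RK.pm_posDef hF.1.1 (hψ.1.2 x hx)
  have hgram : gram (pm (b + k) g ψ) e = gm g ψ := by
    funext x
    ext i j
    show hermi _ (Pi.single _ 1) (Pi.single _ 1) = _
    rw [Pool.Agent.Helper9.RK.hermi_single]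
    rfl
  have hgs : ∀ i j, ContDiffOn ℝ ∞ (fun x => gm g ψ x i j) W := fun i j => hPs _ _
  have hgp : ∀ x ∈ W, (gm g ψ x).PosDef := fun x hx => fbl_posDef (hPp x hx)
  have hgd : ∀ x ∈ W, (gm g ψ x).det ≠ 0 := fun x hx => (hgp x hx).det_pos.ne'
  have hDv : ∀ α (f : Cn (b + k) → ℂ) x, Dv (e α) f x = cd (Fin.natAdd b α) f x :=
    fun α f x => Dv_const _ f x
  have hDvb : ∀ α (f : Cn (b + k) → ℂ) x, Dvb (e α) f x = cdb (Fin.natAdd b α) f x :=
    fun α f x => Dvb_const _ f x
  refine ⟨hgs, hgp, fun x hx i j l => ?_, fun x hx i j l m => ?_, fun x hx i => ?_⟩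
  · have h1 := (hfrd x hx).1 l i j
    unfold TRN at h1
    rw [hgram, hDv, hDv] at h1
    exact sub_eq_zero.1 h1
  · -- flatness
    have hcdg : ∀ j q, ContDiffOn ℝ ∞ (cd (Fin.natAdd b i) (fun y => gm g ψ y j q)) W :=
      fun j q => ((hWIRT W hWo _ _ (hgs j q) (hgs j q)).1 (Fin.natAdd b i)).1
    have hNs : ∀ j q, ContDiffOn ℝ ∞ (fun y => chrM (gm g ψ) i y j q) W := by
      intro j q
      simp only [chrM, Matrix.mul_apply, Matrix.of_apply]
      refine ContDiffOn.sum fun p _ => ?_
      exact (hcdg j p).mul (contDiffOn_inv hgs hgd p q)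
    have hprod : ∀ y ∈ W, ∀ j q, ∑ p, chrM (gm g ψ) i y j p * gm g ψ y p q =
        cd (Fin.natAdd b i) (fun y => gm g ψ y j q) y := by
      intro y hy j q
      have h1 : chrM (gm g ψ) i y * gm g ψ y =
          Matrix.of fun j l => cd (Fin.natAdd b i) (fun y => gm g ψ y j l) y := by
        unfold chrM
        rw [Matrix.mul_assoc, Matrix.nonsing_inv_mul _ (isUnit_iff_ne_zero.2 (hgd y hy)),
          Matrix.mul_one]
      have h2 := congrFun (congrFun h1 j) q
      rw [Matrix.mul_apply] at h2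
      exact h2
    have hkey : ∀ q, ∑ p, cdb (Fin.natAdd b l) (fun y => chrM (gm g ψ) i y j p) x *
        gm g ψ x p q = 0 := by
      intro q
      have h1 : cdb (Fin.natAdd b l) (fun y => ∑ p, chrM (gm g ψ) i y j p * gm g ψ y p q) x =
          cdb (Fin.natAdd b l) (cd (Fin.natAdd b i) (fun y => gm g ψ y j q)) x := by
        apply Pool.Agent.Helper97.RK.cdb_congr
        filter_upwards [hWo.mem_nhds hx] with y hy using hprod y hy j q
      rw [cdb_sum hWIRT hWo _ (fun p _ => (hNs j p).mul (hgs p q)) _ hx] at h1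
      have h2 : ∀ p, cdb (Fin.natAdd b l) (fun y => chrM (gm g ψ) i y j p * gm g ψ y p q) x =
          chrM (gm g ψ) i x j p * cdb (Fin.natAdd b l) (fun y => gm g ψ y p q) x +
          gm g ψ x p q * cdb (Fin.natAdd b l) (fun y => chrM (gm g ψ) i y j p) x := fun p =>
        ((hWIRT W hWo _ _ (hNs j p) (hgs p q)).2.2.1 (Fin.natAdd b l) x hx).2
      simp only [h2] at h1
      rw [Finset.sum_add_distrib] at h1
      have h3 := (hfrd x hx).2.1 i l j q
      unfold CRV DD at h3
      rw [hgram] at h3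
      simp only [hDv] at h3
      have h4 : ∀ p, Dvb (e l) (fun y => gm g ψ y p q) =
          cdb (Fin.natAdd b l) (fun y => gm g ψ y p q) := fun p => funext fun y => hDvb l _ y
      simp only [h4] at h3
      have h5 : ∀ p, chrM (gm g ψ) i x j p * cdb (Fin.natAdd b l) (fun y => gm g ψ y p q) x =
          ∑ r, cd (Fin.natAdd b i) (fun y => gm g ψ y j r) x * (gm g ψ x)⁻¹ r p *
            cdb (Fin.natAdd b l) (fun y => gm g ψ y p q) x := by
        intro p
        simp only [chrM, Matrix.mul_apply, Matrix.of_apply, Finset.sum_mul]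
      simp only [h5] at h1
      have h6 : cd (Fin.natAdd b i) (cdb (Fin.natAdd b l) (fun y => gm g ψ y j q)) x =
          cdb (Fin.natAdd b l) (cd (Fin.natAdd b i) (fun y => gm g ψ y j q)) x :=
        ((hWIRT W hWo _ _ (hgs j q) (hgs j q)).2.2.2.2.1 _ _ x hx).2.2
      rw [h6] at h3
      have h7 : ∑ p, gm g ψ x p q * cdb (Fin.natAdd b l) (fun y => chrM (gm g ψ) i y j p) x = 0 := by
        linear_combination h1 - h3
      rw [← h7]
      exact Finset.sum_congr rfl fun p _ => mul_comm _ _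
    have h8 : (fun p => cdb (Fin.natAdd b l) (fun y => chrM (gm g ψ) i y j p) x) ᵥ* gm g ψ x = 0 := by
      funext q
      exact hkey q
    have h9 := congrArg (fun r => r ᵥ* (gm g ψ x)⁻¹) h8
    simp only [Matrix.vecMul_vecMul, Matrix.mul_nonsing_inv _ (isUnit_iff_ne_zero.2 (hgd x hx)),
      Matrix.vecMul_one, Matrix.zero_vecMul] at h9
    exact congrFun h9 m
  · -- the volume
    obtain ⟨k1, k2, k3, -⟩ := hKFB hfr
    have hdet : ∀ y ∈ W, 0 < (gm g ψ y).det.re := fun y hy => (Complex.pos_iff.1 (hgp y hy).det_pos).1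
    set K : ℝ := ‖(PM w fun α => ef b α).det‖ ^ 2 with hK
    have hKp : 0 < K := by
      have := k3 x hx
      have h1 : 0 < ‖(PM w fun α => ef b α).det‖ := norm_pos_iff.2 this
      positivity
    have huf : ∀ y ∈ W, ((uf Φ (pm (b + k) g ψ) w e y : ℝ) : ℂ) =
        (((Real.log (mdet Φ w y).re : ℝ) : ℂ) + ((Real.log (gm g ψ y).det.re : ℝ) : ℂ)) +
          (-((Φ y : ℝ) : ℂ) + ((-Real.log K : ℝ) : ℂ)) := by
      intro y hy
      have h1 : uf Φ (pm (b + k) g ψ) w e y = Real.log (mdet Φ w y).re +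
          Real.log (gm g ψ y).det.re + (- Φ y + - Real.log K) := by
        unfold uf dens
        rw [hgram, Real.log_div (mul_pos (k1 y hy).2 (hdet y hy)).ne' hKp.ne',
          Real.log_mul (k1 y hy).2.ne' (hdet y hy).ne']
        ring
      rw [h1]
      push_cast
      ring
    have hs1 := Pool.Agent.Helper97.RK.sm_logre k2 fun y hy => (k1 y hy).2
    have hs2 := Pool.Agent.Helper97.RK.sm_logre (Pool.Agent.Helper97.RK.sm_det hgs) hdet
    have hs3 : ContDiffOn ℝ ∞ (fun y => ((Φ y : ℝ) : ℂ)) W :=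
      Complex.ofRealCLM.contDiff.comp_contDiffOn hsm
    have hcl : cd (Fin.natAdd b i) (fun y => ((Real.log (mdet Φ w y).re : ℝ) : ℂ)) x = 0 := by
      have c1 : ∀ j l, cd (Fin.natAdd b i) (fun y => LM Φ y j l) x = 0 := by
        intro j l
        have h1 := (hDERK hfr x hx).2.2.2.2.2.1 i j l
        rw [hDv] at h1
        rw [h1]
        have h2 : ∀ a c, Bm (e i) x a c = 0 := by
          intro a c
          show cd c (fun _ => ef b i a) x = 0
          exact Pool.Agent.Helper97.RK.cd_const _ _ _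
        simp [h2]
      have c2 : ∀ j l, cdb (Fin.natAdd b i) (fun y => LM Φ y j l) x = 0 := by
        intro j l
        have h1 : cdb (Fin.natAdd b i) (fun y => LM Φ y j l) x =
            cdb (Fin.natAdd b i) (fun y => conj (LM Φ y l j)) x := by
          apply Pool.Agent.Helper97.RK.cdb_congr
          filter_upwards [hWo.mem_nhds hx] with y hy
          exact ((l2 y hy).apply j l).symm
        rw [h1, ((hWIRT W hWo _ _ (l1 l j) (l1 l j)).2.2.2.1 _ x hx).2, c1, map_zero]
      have c3 : ∀ u : Cn (b + k), (u = Pi.single (Fin.natAdd b i) 1 ∨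
          u = Pi.single (Fin.natAdd b i) I) →
          fderiv ℝ (fun y => ((Real.log (mdet Φ w y).re : ℝ) : ℂ)) x u = 0 := by
        intro u hu
        have d0 : ∀ j l, DifferentiableAt ℝ (fun y => LM Φ y j l) x := fun j l =>
          ((l1 j l).contDiffAt (hWo.mem_nhds hx)).differentiableAt (by simp)
        have d1 : fderiv ℝ (fun y => mdet Φ w y) x u = 0 := by
          unfold mdet
          have hent : ∀ i' j', (fun y => (Matrix.of fun i j : Fin b =>
              hermi (LM Φ y) (w i) (w j)) i' j') = fun y => LM Φ y (Fin.castAdd k i')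
              (Fin.castAdd k j') := by
            intro i' j'
            funext y
            exact Pool.Agent.Helper9.RK.hermi_single _ _ _
          apply fderiv_det_zero
          · intro i' j'
            rw [hent]
            exact d0 _ _
          · intro i' j'
            rw [hent]
            rcases hu with rfl | rfl
            · exact (fderiv_zero_of_cd (c1 _ _) (c2 _ _)).1
            · exact (fderiv_zero_of_cd (c1 _ _) (c2 _ _)).2
        have d2 : DifferentiableAt ℝ (fun y => mdet Φ w y) x :=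
          (k2.contDiffAt (hWo.mem_nhds hx)).differentiableAt (by simp)
        have d3 : HasFDerivAt (fun y => (mdet Φ w y).re)
            (Complex.reCLM.comp (fderiv ℝ (fun y => mdet Φ w y) x)) x :=
          Complex.reCLM.hasFDerivAt.comp x d2.hasFDerivAt
        have d4 := d3.log (k1 x hx).2.ne'
        have d5 := Complex.ofRealCLM.hasFDerivAt.comp x d4
        have d6 : (fun y => ((Real.log (mdet Φ w y).re : ℝ) : ℂ)) =
            ⇑Complex.ofRealCLM ∘ fun y => Real.log (mdet Φ w y).re := rfl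
        rw [d6, d5.fderiv]
        simp [d1]
      unfold cd
      rw [c3 _ (Or.inl rfl), c3 _ (Or.inr rfl)]
      simp
    have h1 := (hfrd x hx).2.2 i
    rw [hDv] at h1
    have h2 : cd (Fin.natAdd b i) (fun y => ((uf Φ (pm (b + k) g ψ) w e y : ℝ) : ℂ)) x =
        cd (Fin.natAdd b i) (fun y => (((Real.log (mdet Φ w y).re : ℝ) : ℂ) +
          ((Real.log (gm g ψ y).det.re : ℝ) : ℂ)) +
          (-((Φ y : ℝ) : ℂ) + ((-Real.log K : ℝ) : ℂ))) x := by
      apply Pool.Agent.Helper97.RK.cd_congr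
      filter_upwards [hWo.mem_nhds hx] with y hy using huf y hy
    have hadd := fun (f g : Cn (b + k) → ℂ) (hf : ContDiffOn ℝ ∞ f W) (hg : ContDiffOn ℝ ∞ g W) =>
      ((hWIRT W hWo f g hf hg).2.1 (Fin.natAdd b i) x hx).1
    rw [h2, hadd _ _ (hs1.add hs2) (hs3.neg.add contDiffOn_const), hadd _ _ hs1 hs2,
      hadd _ _ hs3.neg contDiffOn_const, hcl, Pool.Agent.Helper97.RK.cd_const] at h1
    have h3 : cd (Fin.natAdd b i) (fun y => -((Φ y : ℝ) : ℂ)) x =
        - cd (Fin.natAdd b i) (fun y => ((Φ y : ℝ) : ℂ)) x := by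
      unfold cd
      have : fderiv ℝ (fun y => -((Φ y : ℝ) : ℂ)) x = - fderiv ℝ (fun y => ((Φ y : ℝ) : ℂ)) x :=
        fderiv_fun_neg
      rw [this]
      simp
      ring
    rw [h3] at h1
    linear_combination h1

end Pool.Agent.Helper45.RK
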