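import Pool.Agent.Helper45.RK.GoalsG
import Pool.Agent.Helper45.LinK.GoalsK

/-!
# Section J': the discrete case (corank `k`)

See `Helper95/RK/paper.md`. The case `k = 1` is `GFIN`, `FIBT`, `ROOT`, `MZ` in `Helper10/SP/GoalsK.lean`.
-/

open Complex Metric Set Filter Topology
open scoped ContDiff ComplexConjugate Matrix ComplexOrder

namespace Pool.Agent.Helper45.RK

open Pool.Agent.Helper95.Lin Pool.Agent.Helper10.SP Pool.Agent.Helper95.RK Pool.Agent.Helper45.SP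

/-! ## Crystallographic groups of `ℂᵏ` -/

/-- A set of affine maps `w ↦ M w + v` of `ℂᵏ` which is a group, acts properly and cocompactly and has
bounded linear parts. -/
structure AffSet {k : ℕ} (𝒢 : Set (Matrix (Fin k) (Fin k) ℂ × Cn k)) : Prop where
  one : (1, 0) ∈ 𝒢
  mul : ∀ p ∈ 𝒢, ∀ q ∈ 𝒢, (p.1 * q.1, p.1 *ᵥ q.2 + p.2) ∈ 𝒢
  inv : ∀ p ∈ 𝒢, ∃ q ∈ 𝒢, q.1 * p.1 = 1 ∧ q.1 *ᵥ p.2 + q.2 = 0
  bdd : ∃ C : ℝ, ∀ p ∈ 𝒢, MB p.1 C
  proper : ∀ r : ℝ, {p | p ∈ 𝒢 ∧ ‖p.2‖ ≤ r}.Finite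
  coc : ∃ r : ℝ, ∀ w : Cn k, ∃ p ∈ 𝒢, ‖p.1 *ᵥ w + p.2‖ ≤ r

/-- AFB. Bieberbach's theorem. USES: `LinK.S_BIEB` (proved: `Pool.Agent.Helper45.LinK.t_BIEB` in
`Helper45/LinK/Assembly1.lean`), `eq_top_of_near` of `Helper25/LinK/LATTK.lean`.
PROOF. Let `N` be the subgroup of the group of affine automorphisms of `ℂᵏ` (`Cn k ≃ᵃ[ℂ] Cn k`, or of
`Equiv.Perm (Cn k)`) consisting of the maps `w ↦ p.1 w + p.2`, `p ∈ 𝒢` (`one`, `mul`, `inv`; from `q.1 * p.1 = 1` also
`p.1 * q.1 = 1`). `A ν :=` the linear part as a continuous linear map, `a ν := ν 0`. `AffN A a`: `mul`: clear; `bdd`: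
`‖A ν‖ ≤ max C 0` (`MB`); `proper`, `coc`. `BIEB`: `range A` is finite, so `{M | ∃ v, (M, v) ∈ 𝒢}` is finite. Choose for each
of these `M` one `p_M ∈ 𝒢`; for `p ∈ 𝒢` with linear part `M` the product of the inverse of `p_M` and `p` is a translation
`(1, v) ∈ 𝒢` with `v = p_M⁻¹(p.2)`. So for every `w`, with `p` from `coc`, `w + v = p_M⁻¹(p w)` stays in a bounded set
(independent of `w`): the real span of `{v | (1, v) ∈ 𝒢}` is at bounded distance from every point, so it is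
everything (`eq_top_of_near`), and it contains a real basis of `ℂᵏ`
(`Submodule.exists_fun_fin_finrank_span_eq`, `finrank_real_of_complex`; see the proof of `LATTK`). -/
def S_AFB : Prop := ∀ {k : ℕ} {𝒢 : Set (Matrix (Fin k) (Fin k) ℂ × Cn k)}, AffSet 𝒢 →
  {M | ∃ v, (M, v) ∈ 𝒢}.Finite ∧ ∃ v : Fin (2 * k) → Cn k, (∀ l, (1, v l) ∈ 𝒢) ∧
    LinearIndependent ℝ v

/-! ## Finitely many base maps -/

/-- `s i l`, `l < n i`, are the different base maps of the elements over `ball (c i) 4`. -/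
structure GClK {b k N : ℕ} (c : Fin N → Cn b) (P : Set (Cn b) → TriK b k → Prop) (n : Fin N → ℕ)
    (s : ∀ i, Fin (n i) → TriK b k) : Prop where
  big : ∀ i l, BigK c P i (s i l)
  cov : ∀ i t, BigK c P i t → ∃ l, ∀ z ∈ ball (c i) 4, t.g z = (s i l).g z
  dist : ∀ i l m, (∀ z ∈ ball (c i) 4, (s i l).g z = (s i m).g z) → l = m

/-- GFINK. Finitely many base maps. USES: LCONV, PGK. Adapt `Helper53/SP/GFIN.lean` (only the base maps
`g` occur; `LCONV` for `bs '' {t | BigK c P i t}`). -/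
def S_GFINK : Prop := ∀ {b k N : ℕ} (c : Fin N → Cn b) (R : ℝ) (P : Set (Cn b) → TriK b k → Prop)
  (Φ : Cn b → ℝ) (Hf : Cn b → Matrix (Fin k) (Fin k) ℂ) (C : ℝ), AFolK c R P Φ Hf C → DiscK c P →
  ∃ (n : Fin N → ℕ) (s : ∀ i, Fin (n i) → TriK b k), GClK c P n s

/-! ## The maps with trivial base map -/

/-- The elements over `ball (c i) 4` with trivial base map. -/
def FixK {b k N : ℕ} (c : Fin N → Cn b) (P : Set (Cn b) → TriK b k → Prop) (i : Fin N)
    (t : TriK b k) : Prop := P (ball (c i) 4) t ∧ ∀ z ∈ ball (c i) 4, t.g z = z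

/-- FIXG. The elements with trivial base map form a group. Compare the lemmas at the beginning of
`Helper13/SP/FIBT.lean` and `Helper79/SP/ROOT.lean`.
PROOF. `BigK`: the point `c i`. Products: `comp` on the ball. Inverses: `inv` at `c i` gives `s`; `ext` at `c i` (value
`c i`) gives `s'` on `ball (c i) 4` with `s'.comp t = one` near `c i`, so on the ball by the identity theorem (all
components are holomorphic on the ball: `s'.g (t.g z) = s'.g z`), `s'.g z = z`; then the matrix `s'.A z` is the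
inverse of `t.A z`. Powers: products. -/
def S_FIXG : Prop := ∀ {b k N : ℕ} (c : Fin N → Cn b) (R : ℝ) (P : Set (Cn b) → TriK b k → Prop)
  (Φ : Cn b → ℝ) (Hf : Cn b → Matrix (Fin k) (Fin k) ℂ) (C : ℝ), AFolK c R P Φ Hf C → ∀ i,
  (∀ t, FixK c P i t → BigK c P i t) ∧ FixK c P i TriK.one ∧
  (∀ t s, FixK c P i t → FixK c P i s → FixK c P i (t.comp s)) ∧
  (∀ t, FixK c P i t → ∃ s, FixK c P i s ∧ ∀ z ∈ ball (c i) 4, s.A z * t.A z = 1 ∧
    t.A z * s.A z = 1 ∧ s.A z *ᵥ t.β z + s.β z = 0) ∧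
  ∀ t, FixK c P i t → ∀ m : ℕ, ∃ s, FixK c P i s ∧ ∀ z ∈ ball (c i) 4, s.A z = t.A z ^ m

/-- FIBGK. The fibre group acts properly and cocompactly. USES: GFINK, FIXG. Compare
`Helper13/SP/FIBT.lean`.
PROOF. `one`, `mul`, `inv`: `FIXG` at the point `z` (`t.g z = z`). `bdd`: `abd`. `proper`: if the set is infinite there is a
sequence of `t_n` with pairwise different `(t_n.A z, t_n.β z)` and `‖t_n.β z‖ ≤ r`, so `‖t_n.β (c i)‖ ≤ C (1 + r)` (`bgr`), and
`fin` gives two equal ones: contradiction. `coc`: for `w` take (`coc` of `AFolK`, `ext` at `z`) `s_w`, `BigK` over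
`ball (c i) 4`, `s_w.g z ∈ Bd c 1`, `‖s_w.ap z w‖ < 1`; by `GFINK` there are finitely many classes of base maps on the
ball; for each class that occurs fix one `s_l := s_{w_l}` of the class, and let `r_l` be the inverse germ of `s_l` at
`s_l.g z` (`inv`). The germ `r_l.comp s_w` at `z` (`comp` on a small neighbourhood; `s_w.g = s_l.g`) has base map the
identity near `z`; `ext` at `z` gives an element `t` over `ball (c i) 4` with trivial base map (identity theorem),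
`t.ap z w = r_l.ap (s_l.g z) (s_w.ap z w)`, `‖s_w.ap z w‖ < 1`: bounded by a constant depending only on the finitely
many `l`. -/
def S_FIBGK : Prop := ∀ {b k N : ℕ} (c : Fin N → Cn b) (R : ℝ) (P : Set (Cn b) → TriK b k → Prop)
  (Φ : Cn b → ℝ) (Hf : Cn b → Matrix (Fin k) (Fin k) ℂ) (C : ℝ), AFolK c R P Φ Hf C → DiscK c P →
  ∀ i, ∀ z ∈ ball (c i) 2, AffSet {p | ∃ t, FixK c P i t ∧ p = (t.A z, t.β z)}

/-- A1K. An element with trivial base map which is a translation on one fibre is a translation on all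
fibres. USES: FIXG, `LinK.S_UNIP` (proved: `Pool.Agent.Helper45.LinK.t_UNIP` in
`Helper45/LinK/Assembly1.lean`). Compare `Helper82/LinK/TRK.lean`.
PROOF. `f z := trace (t.A z)` is holomorphic on `ball (c i) 4`. For `z` in the ball and `m : ℕ`, `(t.A z)^m` is the linear part
of an element (`FIXG`), so `MB ((t.A z)^m) C` (`abd`): by `UNIP` (for the continuous linear map `w ↦ t.A z *ᵥ w`) `|f z| ≤ k`,
with equality `f z = k` only if `t.A z = 1`. `f z₁ = k`, so by the maximum principle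
(`Complex.eqOn_of_isPreconnected_of_isMaxOn_norm`) `f = k` on the ball. -/
def S_A1K : Prop := ∀ {b k N : ℕ} (c : Fin N → Cn b) (R : ℝ) (P : Set (Cn b) → TriK b k → Prop)
  (Φ : Cn b → ℝ) (Hf : Cn b → Matrix (Fin k) (Fin k) ℂ) (C : ℝ), AFolK c R P Φ Hf C → ∀ i t,
  FixK c P i t → ∀ z₁ ∈ ball (c i) 4, t.A z₁ = 1 → ∀ z ∈ ball (c i) 4, t.A z = 1

/-- FIBTK. `2k` independent translations of each fibre. USES: FIBGK, AFB, A1K, FIXG.
PROOF. `AFB` for the group of `FIBGK` at `z` gives `t_l` with `FixK`, `t_l.A z = 1`, `v_l = t_l.β z` independent over `ℝ`; by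
`A1K` `t_l.A = 1` on the ball. -/
def S_FIBTK : Prop := ∀ {b k N : ℕ} (c : Fin N → Cn b) (R : ℝ) (P : Set (Cn b) → TriK b k → Prop)
  (Φ : Cn b → ℝ) (Hf : Cn b → Matrix (Fin k) (Fin k) ℂ) (C : ℝ), AFolK c R P Φ Hf C → DiscK c P →
  ∀ i, ∀ z ∈ ball (c i) 2, ∃ t : Fin (2 * k) → TriK b k, (∀ l, BigK c P i (t l)) ∧
    (∀ l, ∀ y ∈ ball (c i) 4, (t l).g y = y ∧ (t l).A y = 1) ∧
    LinearIndependent ℝ fun l => (t l).β z

/-- ROOTK. The linear parts of the elements with trivial base map have bounded order. USES: FIBGK, AFB,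
A1K, FIXG.
PROOF. Fix `i`. By `AFB` (at `z = c i`) the set `S` of the matrices `t.A (c i)`, `FixK c P i t`, is finite, with `L`
elements. For such `t` the matrices `(t.A (c i))^m`, `0 ≤ m ≤ L`, are in `S` (`FIXG`), so two are equal and
`(t.A (c i))^p = 1` for some `1 ≤ p ≤ L` (`det ≠ 0`). The element `s` with `s.A = t.A^p` (`FIXG`) has `s.A = 1` on the ball by
`A1K`. So `(t.A z)^(L!) = 1`. Product over `i`. -/
def S_ROOTK : Prop := ∀ {b k N : ℕ} (c : Fin N → Cn b) (R : ℝ) (P : Set (Cn b) → TriK b k → Prop)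
  (Φ : Cn b → ℝ) (Hf : Cn b → Matrix (Fin k) (Fin k) ℂ) (C : ℝ), AFolK c R P Φ Hf C → DiscK c P →
  ∃ m₀ : ℕ, 1 ≤ m₀ ∧ ∀ i t, FixK c P i t → ∀ z ∈ ball (c i) 4, t.A z ^ m₀ = 1

/-! ## Powers of the Jacobians -/

/-- The Jacobian determinant of `(z, w) ↦ (g z, A z w + β z)`. -/
noncomputable def JtK {b k : ℕ} (t : TriK b k) (z : Cn b) : ℂ := (fderiv ℂ t.g z).det * (t.A z).det

/-- `M`-th powers of the Jacobians depend only on the base map, and are `1` at fixed points. -/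
def JMK {b k N : ℕ} (c : Fin N → Cn b) (P : Set (Cn b) → TriK b k → Prop) (M : ℕ) : Prop :=
  (∀ i t t', BigK c P i t → BigK c P i t' → (∀ z ∈ ball (c i) 4, t.g z = t'.g z) →
    ∀ z ∈ ball (c i) 4, JtK t z ^ M = JtK t' z ^ M) ∧
  ∀ i t, BigK c P i t → ∀ z ∈ ball (c i) 2, t.g z = z → JtK t z ^ M = 1

/-- MZK. USES: GFINK, ROOTK, FIXG. Adapt `Helper8/SP/MZ.lean` (with `a` replaced by the function
`det (A z)`: it is multiplicative under composition, and `det (t.A z) ^ m₀ = 1` if `FixK c P i t`). -/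
def S_MZK : Prop := ∀ {b k N : ℕ} (c : Fin N → Cn b) (R : ℝ) (P : Set (Cn b) → TriK b k → Prop)
  (Φ : Cn b → ℝ) (Hf : Cn b → Matrix (Fin k) (Fin k) ℂ) (C : ℝ), AFolK c R P Φ Hf C → DiscK c P →
  ∃ M₀ : ℕ, 1 ≤ M₀ ∧ ∀ m : ℕ, JMK c P (M₀ * m)

end Pool.Agent.Helper45.RK
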