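import Pool.Agent.Helper45.SP.AssemblyFG
import Pool.Agent.Helper45.LinK.Assembly1
import Pool.Agent.Helper68.Lin.CAU
import Pool.Agent.Helper10.RK.GoalsK
import Pool.Agent.Helper49.RK.COMMK
import Pool.Agent.Helper89.RK.PEXK
import Pool.Agent.Helper93.RK.ANGK
import Pool.Agent.Helper27.RK.NILTK
import Pool.Agent.Helper69.RK.ADNK
import Pool.Agent.Helper70.RK.LCENTK
import Pool.Agent.Helper35.RK.HFA1
import Pool.Agent.Helper25.RK.HFA2
import Pool.Agent.Helper90.RK.PGK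
import Pool.Agent.Helper56.RK.CONJK
import Pool.Agent.Helper11.RK.FGMK
import Pool.Agent.Helper8.RK.FIXG
import Pool.Agent.Helper58.RK.FIBGK
import Pool.Agent.Helper8.RK.A1K
import Pool.Agent.Helper90.RK.ROOTK
import Pool.Agent.Helper35.RK.AFB
import Pool.Agent.Helper35.RK.GFINK
import Pool.Agent.Helper65.RK.FIBTK

/-!
# Sections F', G', J': assembly

`fgk` (the alternative), `gfink`, `fibtk`, `rootk` in the form of `Helper10/RK/GoalsK.lean`.
-/

open Complex Metric Set Filter Topology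
open scoped Matrix

namespace Pool.Agent.Helper45.RK

open Pool.Agent.Helper10.SP Pool.Agent.Helper45.SP Pool.Agent.Helper95.Lin Pool.Agent.Helper95.RK

theorem t_CAU : S_CAU := Pool.Agent.Helper68.Lin.CAU
theorem t_COMMK : S_COMMK := Pool.Agent.Helper49.RK.commk t_LCONV t_LCMP t_SURJ
theorem t_PEXK : S_PEXK := Pool.Agent.Helper89.RK.pexk t_LCONV
theorem t_ANGK : S_ANGK := Pool.Agent.Helper93.RK.angk t_PEXK t_CAU
theorem t_NILTK : S_NILTK :=
  Pool.Agent.Helper27.RK.niltk t_LNRM t_COMMK t_STEP t_SEQ t_LAPPR t_ANGK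
theorem t_ADNK : S_ADNK :=
  Pool.Agent.Helper69.RK.adnk t_LNRM t_LNCMP t_LAD t_LADAPX t_NILTK t_ANGK t_NILLIM
theorem t_LCENTK : S_LCENTK := Pool.Agent.Helper70.RK.lcentk t_LLALG t_ADNK
theorem t_HFA1 : S_HFA1 := Pool.Agent.Helper35.RK.hfa1
theorem t_HFA2 : S_HFA2 := Pool.Agent.Helper25.RK.hfa2 t_HFA1
theorem t_PGK : S_PGK := Pool.Agent.Helper90.RK.pgk t_HFA2
theorem t_CONJK : S_CONJK := Pool.Agent.Helper56.RK.conjk
theorem t_FIXG : S_FIXG := Pool.Agent.Helper8.RK.fixg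
theorem t_A1K : S_A1K := Pool.Agent.Helper8.RK.a1k Pool.Agent.Helper45.LinK.t_UNIP

/-- Sections F' and G': the alternative. -/
theorem fgk : Pool.Agent.Helper95.RK.S_FGK :=
  Pool.Agent.Helper11.RK.fgmk t_PGK t_CONJK t_LEXT t_LADD t_LFIN t_LCENTK t_ZTRANS

theorem t_GFINK : S_GFINK := Pool.Agent.Helper35.RK.gfink t_LCONV t_PGK
theorem t_AFB : S_AFB := Pool.Agent.Helper35.RK.afb
theorem t_FIBGK : S_FIBGK := Pool.Agent.Helper58.RK.fibgk t_GFINK t_FIXG
theorem t_FIBTK : S_FIBTK := Pool.Agent.Helper65.RK.fibtk t_FIBGK t_AFB t_A1K t_FIXG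
theorem t_ROOTK : S_ROOTK := Pool.Agent.Helper90.RK.rootk t_FIBGK t_AFB t_A1K t_FIXG

/-- Finitely many base maps. -/
theorem gfink : Pool.Agent.Helper10.RK.S_GFINK := by
  intro b k N c R P Φ Hf C hA hD
  obtain ⟨n, s, h⟩ := t_GFINK c R P Φ Hf C hA hD
  exact ⟨n, s, h.big, h.cov, h.dist⟩

/-- `2k` independent translations of each fibre. -/
theorem fibtk : Pool.Agent.Helper10.RK.S_FIBTK := t_FIBTK

/-- The determinants of the fibre parts are roots of unity of bounded order. -/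
theorem rootk : Pool.Agent.Helper10.RK.S_ROOTK := by
  intro b k N c R P Φ Hf C hA hD
  obtain ⟨m, hm, h⟩ := t_ROOTK c R P Φ Hf C hA hD
  refine ⟨m, hm, fun i t ht hg z hz => ?_⟩
  rw [← Matrix.det_pow, h i t ⟨ht.1, hg⟩ z hz, Matrix.det_one]

end Pool.Agent.Helper45.RK
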