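import Pool.Agent.Helper45.RK.LDefsK

/-!
# Sections F', G': the closure of the pseudogroup (corank `k`)

Conventions: `Helper45/RK/LDefsK.lean`. For a local group `A` of maps `TriK b k` the set `bs '' A` of base
maps is a local group `LGrp` (`LGrpK.lgrp`, proved), so all packets of `Helper45/SP/GoalsF.lean` and the
packets `LNRM`, `STEP`, `SEQ`, `NILLIM`, `ZTRANS` of `Helper45/SP/GoalsG.lean` apply to it; they are proved
(`Helper45/SP/AssemblyFG.lean`, theorems `t_LCONV`, ...) and may be imported and used directly, or taken as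
hypotheses `(h : S_...)`. The packets below are adaptations of proved files; the paths are given.
-/

open Complex Metric Set Filter Topology
open scoped ContDiff ComplexConjugate Matrix ComplexOrder

namespace Pool.Agent.Helper45.RK

open Pool.Agent.Helper95.Lin Pool.Agent.Helper10.SP Pool.Agent.Helper95.RK Pool.Agent.Helper45.SP

/-! ## Commutators, powers, nilpotency -/

/-- COMMK. Commutators. USES: LMUL, LCMP', SURJ, S_CAU (Lin). Adapt `Helper74/SP/COMM.lean`.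
PROOF. `C` denotes constants which do not depend on `t, s, δ, δ', ε, ε'`. By `LCMP'` (for `bs '' A`) `t`, `s` are
`Cδ`-, `Cδ'`-near on `ball z₀ (3r/4)`. As in `COMM` products, inverses and the identity theorem give `c ∈ A` with
`c.comp (s.comp t) = t.comp s` on `ball z₀ (2r/3)` (for products and inverses of `TriK` elements repeat the short
proof of `LMUL` with the identity theorem for all three components, or derive it from `LGrpK.mul`, `inv`), every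
`y ∈ ball z₀ (r/2)` is `s.g (t.g x)` with `x ∈ ball z₀ (3r/5)`, `‖x - y‖ ≤ C (δ + δ')`, and (1)
`c.g y - y = t.g (s.g x) - s.g (t.g x)` has norm `≤ C δ δ'`.
(2) By `lip` `MB (t.A z - 1) (C (ε + δ))` on `ball z₀ (r/3)`, so by the Cauchy estimates for the entries
`MB (t.A z - t.A z') (C (ε + δ) ‖z - z'‖)` on `ball z₀ (r/4)` (`MB.entry`, `MB.of_entry`); the same for `s` with
`ε' + δ'`. For `y = z₀` (so `x` is near `z₀`): `c.A z₀ * M = M'`, `M = s.A (t.g x) * t.A x`, `M' = t.A (s.g x) * s.A x`,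
so `c.A z₀ - 1 = (M' - M) M⁻¹` and `MB M⁻¹ C` (`abd`);
`M' - M = (t.A (s.g x) - t.A x) s.A x + ((t.A x - 1)(s.A x - 1) - (s.A x - 1)(t.A x - 1)) - (s.A (t.g x) - s.A x) t.A x`
has bound `C (ε + δ) δ' + C (ε + δ)(ε' + δ') + C (ε' + δ') δ`.
(3) `c.β z₀ = ts.β x - c.A z₀ *ᵥ st.β x` and `ts.β x - st.β x = (t.A (s.g x) - 1) *ᵥ s.β x + (s.β x - s.β (t.g x)) +
(t.β (s.g x) - t.β x) + (1 - s.A (t.g x)) *ᵥ t.β x`. By `grow` `‖s.β‖ ≤ C (1 + ‖s.β z₀‖)` on the ball, and by Cauchy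
`‖s.β z - s.β z'‖ ≤ C (1 + ‖s.β z₀‖) ‖z - z'‖` near `z₀`; the same for `t`. Last,
`‖(1 - c.A z₀) *ᵥ st.β x‖ ≤ C (ε + δ)(ε' + δ') (2 + ‖s.β z₀‖ + ‖t.β z₀‖)`, and `ε, ε', δ, δ' ≤ 1`. -/
def S_COMMK : Prop := ∀ {b k : ℕ} {z₀ : Cn b} {r : ℝ} {A : Set (TriK b k)}, PGrpK z₀ r A →
  ∃ η > 0, ∃ C : ℝ, 0 ≤ C ∧ ∀ t ∈ A, ∀ s ∈ A, ∀ δ δ' ε ε' : ℝ, δ ≤ η → δ' ≤ η → 0 ≤ ε → ε ≤ 1 →
    0 ≤ ε' → ε' ≤ 1 → Near z₀ (r / 2) t.g δ → Near z₀ (r / 2) s.g δ' → MB (t.A z₀ - 1) ε →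
    MB (s.A z₀ - 1) ε' → ∃ c ∈ A, IsCommK z₀ c t s ∧ Near z₀ (r / 2) c.g (C * δ * δ') ∧
      MB (c.A z₀ - 1) (C * ((ε + δ) * (ε' + δ'))) ∧
      ‖c.β z₀‖ ≤ C * ((ε + δ) * (1 + ‖s.β z₀‖) + (ε' + δ') * (1 + ‖t.β z₀‖))

/-- PEXK. Powers exist as long as they are near the identity. USES: LCONV. Adapt
`Helper56/SP/PEX.lean` (same proof). -/
def S_PEXK : Prop := ∀ {b k : ℕ} {z₀ : Cn b} {r : ℝ} {A : Set (TriK b k)}, LGrpK z₀ r A →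
  ∀ ρ, 0 < ρ → ρ < r → ∃ c > 0, ∀ t ∈ A, Near z₀ ρ t.g c → ∃ u : ℕ → TriK b k,
    (∀ l, u l ∈ A) ∧ (u 0).EqOn TriK.one (ball z₀ r) ∧
    ∀ l, Near z₀ ρ (u l).g c → IsMulK z₀ (u (l + 1)) t (u l)

/-- ANGK. Elements in the direction `V` whose linear part is near `1`. USES: LCONV, PEXK, S_CAU (Lin).
Compare `Helper40/SP/ANG.lean` (there the angle of a number, here a pigeonhole in a compact set of matrices).
PROOF. We may assume `0 < ρ`, `r/2 ≤ ρ`. Let `C` be the constant of `abd`. The set of `k × k` matrices with entries of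
norm `≤ C` is compact, so there is `K` such that among `K + 1` of its elements two are at distance (in every entry)
`≤ ε₁`, where `ε₁` is small (`k C² ε₁ ≤ ε/2`) (`finite cover by balls`, pigeonhole; the sup norm on `Fin k → Fin k → ℂ`).
For `σ' > 0` very small (depending on `K`) let `t ∈ A`, `t.g ≈ id + σ' V` with error `ε' σ'` on `ball z₀ ρ₁`,
`ρ < ρ₁ < r`, `ε' ≤ ε/2`, from the definition of `InLL`. Its powers `u l`, `l ≤ K`, exist (`PEXK`, they satisfy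
`‖(u l).g z - z‖ ≤ C₁ l σ'` on `ball z₀ ρ₁'`) and `(u l).g z - z = l σ' V z + O(l ε' σ' + (K σ')²)` on `ball z₀ ρ` (as in
`ANG`). For `l ≤ K` and `y` near `z₀`: `(u l).A y = t.A ((u (l-1)).g y) ⋯ t.A (y)`, and `(u (m+l)).g y = (u m).g ((u l).g y)`,
so `(u (i + l)).A z₀ = (u l).A ((u i).g z₀) * (u i).A z₀` (identity theorem for the product relations, on a fixed small
ball). Pigeonhole: `0 ≤ i < j ≤ K`, `l := j - i ≥ 1` with `|(u j).A z₀ - (u i).A z₀| ≤ ε₁` entrywise; multiply by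
`((u i).A z₀)⁻¹`: `MB ((u l).A ((u i).g z₀) - 1) (ε/2)`. By Cauchy the entries of `(u l).A` (bounded by `C`) are
Lipschitz near `z₀`, `‖(u i).g z₀ - z₀‖ ≤ C₁ K σ'`: `MB ((u l).A z₀ - 1) ε`. Take `u l`, `σ = l σ'`. -/
def S_ANGK : Prop := ∀ {b k : ℕ} {z₀ : Cn b} {r : ℝ} {A : Set (TriK b k)}, PGrpK z₀ r A →
  ∀ V, InLL z₀ r (bs '' A) V → ∀ ρ < r, ∀ ε > 0, ∃ σ : ℝ, 0 < σ ∧ σ < ε ∧ ∃ t ∈ A,
    (∀ z ∈ ball z₀ ρ, ‖t.g z - z - σ • V z‖ ≤ ε * σ) ∧ MB (t.A z₀ - 1) ε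

/-- NILTK. `Ad t - 1` is nilpotent for `t` near the identity. USES: LNRM, COMMK, STEP, SEQ, LAPPR, ANGK.
Adapt `Helper55/SP/NILT.lean`.
PROOF. Let `η ≤ 1/2` be small: smaller than the constants of `COMMK`, `STEP`, and `8 C η ≤ 1` for the `C` of `COMMK`.
Suppose `N = Ad t - 1` is not nilpotent. `SEQ` for `ν x = nL z₀ r (Φ x)` (`LNRM`) gives `κ, x₀`; `STEP` for `κ` gives
`κ', σ₀`; by `LAPPR` for `ρ = r/2` and `κ'/2` (`κ' ≤ 1`): for every `s ∈ A` with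
`τ := sup_{ball z₀ (r/2)} ‖s.g z - z‖ ≤ s₀` there is a generator `V` with error `≤ (κ'/2) τ`, and
`τ ≤ nL V + (κ'/2) τ`, so the error is `≤ κ' nL V`. Start: `ANGK` for `Φ x₀` gives `s_0 ∈ A` with
`‖s_0.g z - z - σ Φ x₀ z‖ ≤ ε σ` and `MB (s_0.A z₀ - 1) ε` with `σ` and `ε` as small as we like; its approximating
generator `Φ (Δ 0)` satisfies `ν (Δ 0 - σ x₀) ≤ κ ν (Δ 0)` and `Δ 0 ≠ 0`. `s_{j+1} := c` of `COMMK` for `t, s_j`. CLAIM: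
with `μ_j := 2^(-j) μ_0` (`μ_0` small) `s_j` is `μ_j`-near and `MB (s_j.A z₀ - 1) μ_j`: `C η μ_j ≤ μ_j/2`,
`C (2η)(2 μ_j) ≤ μ_j/2`. `Φ (Δ (j+1))` an approximating generator of `s_{j+1}` (if `τ = 0` take `0`); `STEP` gives
`ν (Δ (j+1) - N (Δ j)) ≤ κ ν (Δ j)`. So all `Δ j ≠ 0` and hence `s_j.g ≠ id` on the ball (if `s_j.g = id` the
approximation gives `nL V ≤ κ' nL V`, so `V = 0`, `κ' < 1`). `B_j := 1 + ‖(s_j).β z₀‖` satisfies `B_{j+1} ≤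
1 + C (2 η) B_j + C (2 μ_j)(1 + ‖t.β z₀‖) ≤ B_j/4 + const`, so `B_j ≤ R` for all `j`. By `fin` `s_j.g = id` for large `j`:
contradiction. -/
def S_NILTK : Prop := ∀ {b k : ℕ} {z₀ : Cn b} {r : ℝ} {A : Set (TriK b k)}, PGrpK z₀ r A →
  ∀ {𝔤 : Type} [LieRing 𝔤] [LieAlgebra ℝ 𝔤] {Φ : 𝔤 →ₗ[ℝ] (Cn b → Cn b)}, LAlg z₀ r (bs '' A) Φ →
  ∃ η > 0, ∀ t ∈ A, Near z₀ (r / 2) t.g η → MB (t.A z₀ - 1) η → ∀ N : 𝔤 →ₗ[ℝ] 𝔤,
    (∀ x, AdR z₀ r t.g (Φ x) (Φ (x + N x))) → IsNilpotent N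

/-- ADNK. `ad V` is nilpotent. USES: LNRM, LNCMP, LAD, LADAPX, NILTK, ANGK, NILLIM. Adapt
`Helper56/SP/ADN.lean`: the same proof with `LAD`, `LNCMP` for `bs '' A` and `MB (t.A z₀ - 1)` instead of
`‖t.a z₀ - 1‖`. -/
def S_ADNK : Prop := ∀ {b k : ℕ} {z₀ : Cn b} {r : ℝ} {A : Set (TriK b k)}, PGrpK z₀ r A →
  ∀ {𝔤 : Type} [LieRing 𝔤] [LieAlgebra ℝ 𝔤] {Φ : 𝔤 →ₗ[ℝ] (Cn b → Cn b)}, LAlg z₀ r (bs '' A) Φ →
  ∀ x : 𝔤, IsNilpotent (LieAlgebra.ad ℝ 𝔤 x)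

/-- LCENTK. The center of the Lie algebra is not zero. USES: LLALG, ADNK. Adapt
`Helper86/SP/LCENT.lean`. -/
def S_LCENTK : Prop := ∀ {b k : ℕ} {z₀ : Cn b} {r : ℝ} {A : Set (TriK b k)}, PGrpK z₀ r A →
  (∃ V, InLL z₀ r (bs '' A) V ∧ ∃ z ∈ ball z₀ r, V z ≠ 0) →
  ∃ V, InLL z₀ r (bs '' A) V ∧ (∃ z ∈ ball z₀ r, V z ≠ 0) ∧
    ∀ W, InLL z₀ r (bs '' A) W → ∀ z ∈ ball z₀ r, brV V W z = 0

/-! ## The linear parts are controlled by their values at one point -/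

/-- The connection matrix `(cd_a Hf) Hf⁻¹` of the fibre metric. -/
noncomputable def GHf {b k : ℕ} (Hf : Cn b → Matrix (Fin k) (Fin k) ℂ) (a : Fin b) (z : Cn b) :
    Matrix (Fin k) (Fin k) ℂ :=
  (Matrix.of fun i j => cd a (fun y => Hf y i j) z) * (Hf z)⁻¹

/-- HFA1. The differential equation of the linear part of an isometry of the fibre metrics. USES: WIRT, WCH
(packets of `Helper10/SP`).
PROOF. `hermi H u v = ∑ H i j u i conj (v j)`, so the hypothesis says `(A z)ᵀ * Hf (g z) * conj (A z) = Hf z` (entrywise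
conjugate; take `u = Pi.single i 1`, `v = Pi.single j 1`). Apply `cd a`: `cd a` of the entries of `conj (A z)` vanishes
(antiholomorphic), `cd a (Hf (g z) i j) = ∑ c, (fderiv ℂ g z (Pi.single a 1)) c * cd c (Hf · i j) (g z)` (`WCH`):
`(cd a A)ᵀ Hf(g) Ā + Aᵀ (∑ c, D_ac (cd c Hf)(g)) Ā = cd a Hf`. Multiply from the right by
`(Hf(g) Ā)⁻¹ = (Hf z)⁻¹ Aᵀ`. -/
def S_HFA1 : Prop := ∀ {b k : ℕ} (W : Set (Cn b)), IsOpen W →
  ∀ Hf : Cn b → Matrix (Fin k) (Fin k) ℂ, (∀ i j, ContDiffOn ℝ ∞ (fun z => Hf z i j) W) →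
  (∀ z ∈ W, (Hf z).PosDef) → ∀ (U : Set (Cn b)) (g : Cn b → Cn b)
  (A : Cn b → Matrix (Fin k) (Fin k) ℂ), IsOpen U → U ⊆ W → DifferentiableOn ℂ g U → MapsTo g U W →
  (∀ i j, DifferentiableOn ℂ (fun z => A z i j) U) → (∀ z ∈ U, (A z).det ≠ 0) →
  (∀ z ∈ U, ∀ u v : Cn k, hermi (Hf (g z)) (A z *ᵥ u) (A z *ᵥ v) = hermi (Hf z) u v) →
  ∀ z ∈ U, ∀ a, (Matrix.of fun i j => cd a (fun y => A y i j) z)ᵀ =
    GHf Hf a z * (A z)ᵀ - (A z)ᵀ * ∑ c, (fderiv ℂ g z (Pi.single a 1)) c • GHf Hf c (g z)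

/-- HFA2. The linear part is near `1` if it is near `1` at one point and the base map is near the identity. USES:
HFA1, S_CAU (Lin).
PROOF. Cauchy: `‖fderiv ℂ g z - 1‖ ≤ C₁ s` on `ball z₀ (3/2)` if `g` is `s`-near on `ball z₀ 2`. `GHf Hf a` is smooth on `W`, so
bounded and Lipschitz on `closedBall z₀ 2` (entrywise; convex compact subset of `W`), and `g` maps `ball z₀ (3/2)` into
`closedBall z₀ 2` if `s ≤ 1/2`. So by `HFA1`, with the bound `C₀` for `A`: the entries of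
`(cd a A)ᵀ - (GHf a z Aᵀ - Aᵀ GHf a z)` are `≤ C₂ s` on `ball z₀ (3/2)`, and `GHf Aᵀ - Aᵀ GHf = GHf (Aᵀ - 1) - (Aᵀ - 1) GHf`. For
`z ∈ ball z₀ (4/3)` put `φ(τ) := (A (z₀ + τ (z - z₀)) i j - δ_ij)_{ij}` (`Fin k → Fin k → ℂ`, sup norm), `τ ∈ [0,1]`;
`φ'(τ) = ∑ a, (z - z₀)_a (1/2) cd a A` (`A` is holomorphic: `cd a = 2 ∂_a`), so `‖φ'‖ ≤ C₃ (‖φ‖ + s)`; Gronwall
(`norm_le_gronwallBound_of_norm_deriv_right_le`): `‖φ(1)‖ ≤ e^{C₃} (‖φ(0)‖ + s)`. `MB.entry`, `MB.of_entry`. -/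
def S_HFA2 : Prop := ∀ {b k : ℕ} (z₀ : Cn b) (W : Set (Cn b)), IsOpen W → closedBall z₀ 2 ⊆ W →
  ∀ Hf : Cn b → Matrix (Fin k) (Fin k) ℂ, (∀ i j, ContDiffOn ℝ ∞ (fun z => Hf z i j) W) →
  (∀ z ∈ W, (Hf z).PosDef) → ∀ C₀ : ℝ, ∃ η > 0, ∃ C : ℝ, 0 ≤ C ∧ ∀ (g : Cn b → Cn b)
  (A : Cn b → Matrix (Fin k) (Fin k) ℂ), DifferentiableOn ℂ g (ball z₀ 2) →
  (∀ i j, DifferentiableOn ℂ (fun z => A z i j) (ball z₀ 2)) →
  (∀ z ∈ ball z₀ 2, (A z).det ≠ 0 ∧ MB (A z) C₀) → MapsTo g (ball z₀ 2) W →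
  (∀ z ∈ ball z₀ 2, ∀ u v : Cn k, hermi (Hf (g z)) (A z *ᵥ u) (A z *ᵥ v) = hermi (Hf z) u v) →
  ∀ s ≤ η, Near z₀ 2 g s → ∀ ε, 0 ≤ ε → MB (A z₀ - 1) ε →
  ∀ z ∈ ball z₀ (4 / 3), MB (A z - 1) (C * (ε + s))

/-! ## From the pseudogroup to local groups -/

/-- PGK. The maps on the ball of radius `4` form a local group. USES: HFA2. Adapt `Helper2/SP/PG.lean`
(`z₀ = c i`, `r = 4`; `abd`: `AFolK.abd`; `lip`: `HFA2` for `W = Bd c R`, `C₀ = C`, with `herm`; `4 / 2 = 2`;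
`grow`: `bgr`; `fin` as there). -/
def S_PGK : Prop := ∀ {b k N : ℕ} (c : Fin N → Cn b) (R : ℝ) (P : Set (Cn b) → TriK b k → Prop)
  (Φ : Cn b → ℝ) (Hf : Cn b → Matrix (Fin k) (Fin k) ℂ) (C : ℝ), AFolK c R P Φ Hf C →
  ∀ i, PGrpK (c i) 4 {t | BigK c P i t}

/-- CONJK. Maps of the pseudogroup conjugate elements near the identity. Adapt
`Helper38/SP/CONJ.lean` (only `g` occurs; same proof). -/
def S_CONJK : Prop := ∀ {b k N : ℕ} (c : Fin N → Cn b) (R : ℝ) (P : Set (Cn b) → TriK b k → Prop)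
  (Φ : Cn b → ℝ) (Hf : Cn b → Matrix (Fin k) (Fin k) ℂ) (C : ℝ), AFolK c R P Φ Hf C →
  ∀ i j U t, P U t → ∀ x ∈ U, x ∈ ball (c i) 2 →
  t.g x ∈ ball (c j) 2 → ∃ (d d' : ℝ) (h : Cn b → Cn b), 0 < d ∧ 0 < d' ∧ ball x d ⊆ U ∧
    ball x d ⊆ ball (c i) 4 ∧ ball (t.g x) d' ⊆ ball (c j) 4 ∧
    MapsTo t.g (ball x d) (ball (c j) 4) ∧ DifferentiableOn ℂ h (ball (t.g x) d') ∧
    MapsTo h (ball (t.g x) d') (ball x d) ∧ (∀ w ∈ ball (t.g x) d', t.g (h w) = w) ∧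
    h (t.g x) = x ∧
    (∃ η > 0, ∀ τ, BigK c P i τ → Near (c i) (4 / 2) τ.g η → ∃ t', BigK c P j t' ∧ ∃ e > 0,
      ∀ z ∈ ball x e, t'.g (t.g z) = t.g (τ.g z)) ∧
    ∃ η > 0, ∀ t', BigK c P j t' → Near (c j) (4 / 2) t'.g η → ∃ τ, BigK c P i τ ∧ ∃ e > 0,
      ∀ w ∈ ball (t.g x) e, τ.g (h w) = h (t'.g w)

/-- FGMK. The alternative. USES: PGK, CONJK, LEXT, LADD', LFIN, LCENTK, ZTRANS. Adapt
`Helper63/SP/FGM.lean`: the same proof with the local groups `bs '' {t | BigK c P i t}` (`LGrpK.lgrp`); the lemmas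
`field_zero`, `brV_add`, `brV_smul`, `exists_Z` there can be imported. `gen`: an element of
`bs '' {t | BigK c P i t}` is `bs t` with `P (ball (c i) 4) t`. -/
def S_FGMK : Prop := S_FGK

end Pool.Agent.Helper45.RK
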