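import Pool.Agent.Helper45.RK.GoalsJ
import Pool.Agent.Helper36.RK.GoalsI
import Pool.Agent.Helper10.SP.GoalsK

/-!
# Section K': construction of sections (corank `k`)

See `Helper95/RK/paper.md`; the case `k = 1` is `Helper10/SP/GoalsK.lean`. The general packets of
`Helper10/SP/GoalsT.lean`, `GoalsK.lean` (`ARRB`, `LFIN`, `DETI`, `BOX`, `PROJ`, `BOCH`, `L2C`, `PUE2`, `NONI`, `LCPT`, ...)
are stated for open sets of `ℂⁿ` and apply to `tubeK k (Bd c 2) ⊆ ℂᵇ⁺ᵏ`; they are proved.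
-/

open Complex Metric Set Filter Topology MeasureTheory
open scoped ContDiff ComplexConjugate Matrix ComplexOrder Manifold

namespace Pool.Agent.Helper45.RK

open Pool.Agent.Helper95.Lin Pool.Agent.Helper16.Abund Pool.Agent.Helper92.Orb
  Pool.Agent.Helper10.SP Pool.Agent.Helper95.RK Pool.Agent.Helper36.RK

universe u v

/-- Sum over the base maps. -/
noncomputable def bsumK {b k N : ℕ} (c : Fin N → Cn b) (n : Fin N → ℕ)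
    (s : ∀ i, Fin (n i) → TriK b k) (M : ℕ) (F : Cn b → ℂ) (z : Cn b) : ℂ :=
  ∑ i, (ball (c i) 2).indicator (fun y => ∑ l, F ((s i l).g y) * JtK (s i l) y ^ M) z

/-- BSUMK. Automorphic sums over the base. Adapt `Helper75/SP/BSUM.lean` (`Jt` replaced by `JtK`, `a` by
`det (A z)`).
PROOF. (1) On the open set `ball (c i) 2` only the term `i` is nonzero (`sep`), and it is smooth (`(s i l).g`, `JtK` are
holomorphic on `ball (c i) 4`). (2) Let `z ∈ ball (c i) 2`, `y := t.g z ∈ ball (c j) 2`. The sets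
`K := {l | (s i l).g z ∈ Bd c 2}` and `L := {l | (s j l).g y ∈ Bd c 2}` are in bijection: for `l ∈ L` the germ of
`(s j l).comp t` at `z` extends (`ext`) to a `BigK` element over `ball (c i) 4`, with base map that of a unique `s i l'`
(`cov`, `dist`), `(s i l').g z = (s j l).g y`; inverse map through the inverse germ of `t`. For corresponding `l', l`:
`JtK (s i l') z ^ M = (JtK (s j l) y * JtK t z) ^ M` (chain rule and the first part of `JMK`; for `M = 0` trivial). The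
other terms vanish (`F = 0` outside `K' ⊆ Bd c 2`). -/
def S_BSUMK : Prop := ∀ {b k N : ℕ} (c : Fin N → Cn b) (R : ℝ) (P : Set (Cn b) → TriK b k → Prop)
  (Φ : Cn b → ℝ) (Hf : Cn b → Matrix (Fin k) (Fin k) ℂ) (C : ℝ), AFolK c R P Φ Hf C →
  ∀ (n : Fin N → ℕ) (s : ∀ i, Fin (n i) → TriK b k),
  GClK c P n s → ∀ M : ℕ, JMK c P M → ∀ (F : Cn b → ℂ) (K : Set (Cn b)), ContDiff ℝ ∞ F →
  IsCompact K → K ⊆ Bd c 2 → (∀ z ∉ K, F z = 0) → ContDiffOn ℝ ∞ (bsumK c n s M F) (Bd c 2) ∧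
  ∀ U t, PBK c P U t → ∀ z ∈ U, bsumK c n s M F z = bsumK c n s M F (t.g z) * JtK t z ^ M

/-- SECWK. Sections and weights from the base. USES: WCH, LMF (and ARRB). Adapt
`Helper74/SP/SECW.lean`.
PROOF. A local arrow `τ` near `x` is `t.map` for the germ `t` of `toP` (`τ` and this map have values `Rel`-related to the
argument by the same `γ`; `ARRB`), `det Dτ = JtK t (base x)` (block triangular matrix: `det (Dg) det (A)`). Weight: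
`Φ z = Φ (g z) + log |JtK|²`. `lev (f ∘ base) x v = lev f (base x) (base v)`. -/
def S_SECWK : Prop := ∀ {b k N : ℕ} {G : Type u} [Group G] (c : Fin N → Cn b) (R : ℝ)
  (Rel : G → Cn (b + k) → Cn (b + k) → Prop) (P : Set (Cn b) → TriK b k → Prop) (Φ : Cn b → ℝ)
  (Hf : Cn b → Matrix (Fin k) (Fin k) ℂ) (C : ℝ)
  (H : Cn (b + k) → Matrix (Fin (b + k)) (Fin (b + k)) ℂ), FEtK c R Rel P Φ Hf C H →
  (∀ (M : ℕ) (f : Cn b → ℂ), ContDiffOn ℝ ∞ f (Bd c 2) →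
    (∀ U t, PBK c P U t → ∀ z ∈ U, f z = f (t.g z) * JtK t z ^ M) →
    Sec (tubeK k (Bd c 2)) Rel M fun x => f (base x)) ∧
  ∀ (M : ℕ) (η : Cn b → ℝ), ContDiffOn ℝ ∞ η (Bd c 2) →
    (∀ U t, PBK c P U t → ∀ z ∈ U, η (t.g z) = η z) →
    Wt (tubeK k (Bd c 2)) Rel (M + 1) (fun x => Real.exp (-(M * Φ (base x)) - η (base x))) ∧
    ∀ x ∈ tubeK k (Bd c 2), ∀ v,
      lev (fun y => Real.log (Real.exp (-(M * Φ (base y)) - η (base y)))) x v =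
        - (M * lev Φ (base x) (base v)) - lev η (base x) (base v)

/-- LOCZK. Isolating balls. Adapt `Helper87/SP/LOCZ.lean` (same proof). -/
def S_LOCZK : Prop := ∀ {b k N : ℕ} (c : Fin N → Cn b) (R : ℝ) (P : Set (Cn b) → TriK b k → Prop)
  (Φ : Cn b → ℝ) (Hf : Cn b → Matrix (Fin k) (Fin k) ℂ) (C : ℝ), AFolK c R P Φ Hf C →
  ∀ (n : Fin N → ℕ) (s : ∀ i, Fin (n i) → TriK b k),
  GClK c P n s → ∀ i, ∀ z₀ ∈ ball (c i) 2, ∃ r₀ : ℝ, 0 < r₀ ∧ (b : ℝ) * r₀ ^ 2 ≤ 1 / 2 ∧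
    closedBall z₀ r₀ ⊆ ball (c i) 2 ∧
    ∀ l, (∃ z ∈ closedBall z₀ r₀, (s i l).g z ∈ closedBall z₀ r₀) → (s i l).g z₀ = z₀

/-- A cut-off function at `z₀` with the isolating property. -/
structure CutOffK {b k N : ℕ} (c : Fin N → Cn b) (n : Fin N → ℕ) (s : ∀ i, Fin (n i) → TriK b k)
    (i : Fin N) (z₀ : Cn b) (r₀ r₁ : ℝ) (χ : Cn b → ℝ) : Prop where
  mem : z₀ ∈ ball (c i) 2
  pos : 0 < r₁
  lt : r₁ < r₀
  small : b * r₀ ^ 2 ≤ 1 / 2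
  sub : closedBall z₀ r₀ ⊆ ball (c i) 2
  iso : ∀ l, (∃ z ∈ closedBall z₀ r₀, (s i l).g z ∈ closedBall z₀ r₀) → (s i l).g z₀ = z₀
  smooth : ContDiff ℝ ∞ χ
  range : ∀ z, 0 ≤ χ z ∧ χ z ≤ 1
  supp : ∀ z, z ∉ closedBall z₀ r₀ → χ z = 0
  one : ∀ z ∈ ball z₀ r₁, χ z = 1

/-- SONEK. The smooth section. USES: BSUMK. Adapt `Helper93/SP/SONE.lean` (same proof). -/
def S_SONEK : Prop := ∀ {b k N : ℕ} (c : Fin N → Cn b) (R : ℝ) (P : Set (Cn b) → TriK b k → Prop)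
  (Φ : Cn b → ℝ) (Hf : Cn b → Matrix (Fin k) (Fin k) ℂ) (C : ℝ), AFolK c R P Φ Hf C →
  ∀ (n : Fin N → ℕ) (s : ∀ i, Fin (n i) → TriK b k),
  GClK c P n s → ∀ i z₀ r₀ r₁ χ, CutOffK c n s i z₀ r₀ r₁ χ →
  ∃ r₂ > 0, ∀ M : ℕ, JMK c P M → bsumK c n s M (fun z => (χ z : ℂ)) z₀ ≠ 0 ∧
    DifferentiableOn ℂ (bsumK c n s M fun z => (χ z : ℂ)) (ball z₀ r₂) ∧
    ∀ j, ∀ z ∈ ball (c j) 2, (∃ l, ‖(s j l).g z - z₀‖ < r₂) →
      ∀ l, cdb l (bsumK c n s M fun z => (χ z : ℂ)) z = 0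

/-- ETAK. The singular weights. USES: WCH, LMF, BSUMK. Adapt `Helper35/SP/ETA.lean` (same proof; only
`g`, `Φ` and `lev Φ z e = lev Φ (g z) (Dg e)` from `pot` occur: `log ‖det (A z)‖²` is pluriharmonic, `WCH`). -/
def S_ETAK : Prop := ∀ {b k N : ℕ} (c : Fin N → Cn b) (R : ℝ) (P : Set (Cn b) → TriK b k → Prop)
  (Φ : Cn b → ℝ) (Hf : Cn b → Matrix (Fin k) (Fin k) ℂ) (C : ℝ), AFolK c R P Φ Hf C →
  ∀ (n : Fin N → ℕ) (s : ∀ i, Fin (n i) → TriK b k),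
  GClK c P n s → ∀ i z₀ r₀ r₁ χ, CutOffK c n s i z₀ r₀ r₁ χ → ∀ r₂ > 0,
  ∃ (η : ℝ → Cn b → ℝ) (K r₃ : ℝ), 0 < K ∧ 0 < r₃ ∧ ball z₀ r₃ ⊆ ball (c i) 2 ∧
  ∀ ε, 0 < ε → ε ≤ 1 / 2 → ContDiffOn ℝ ∞ (η ε) (Bd c 2) ∧
    (∀ U t, PBK c P U t → ∀ z ∈ U, η ε (t.g z) = η ε z) ∧ (∀ z ∈ Bd c 2, η ε z ≤ 0) ∧
    (∀ z ∈ Bd c 2, ∀ e, - K * lev Φ z e ≤ lev (η ε) z e) ∧
    (∀ j, ∀ z ∈ ball (c j) 2, (∀ l, r₂ ≤ ‖(s j l).g z - z₀‖) → - K ≤ η ε z) ∧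
    ∀ z ∈ ball z₀ r₃, η ε z ≤ b * Real.log (K * (‖z - z₀‖ ^ 2 + ε ^ 2))

/-- UESTK. The estimate. USES: WIRT, LMF, ARRB, DETI, BOX, PROJ, BOCH. Adapt `Helper8/SP/UEST.lean`.
PROOF. `s := f ∘ base`. `PROJ`: `g` holomorphic, `h_j`, `nsE (s - g - boxO h_j) → 0`. `u := s - g`. `nsE u = lim ipE u (boxO h_j)`,
`ipE u (boxO h_j) = dipE u h_j = dipE s h_j` (`BOX`, `∂̄g = 0`) `= ∫ κ W ∑ l cdb_l s conj (v_j^l)`, `v_j = vfld H h_j`
(`∑ l (H⁻¹) j l conj (cdb_l h) = conj (vfld h j)`); `cdb_l s = cdb_l f` for `l` in the base and `0` for the fibre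
coordinates. With `Θ = LM Φ` and `ξ := (Θᵀ)⁻¹ ∂̄f` (`∑ i Θ i j ξ^i = cdb_j f`): `∑ j cdb_j f conj v^j = hermi Θ ξ (base v)`,
Cauchy-Schwarz: `|…|² ≤ (hermi Θ ξ ξ) lev Φ (base v)`, `hermi Θ ξ ξ = qdb`. So `|ipE u (boxO h_j)|² ≤ (∫ κ W qdb)
(∫ κ W lev Φ(base v_j)) ≤ (∫ κ W qdb) nsE (boxO h_j)` (`BOCH` and the hypothesis), and `nsE (boxO h_j) → nsE u`. -/
def S_UESTK : Prop := ∀ {b k N : ℕ} {G : Type u} [Group G] (c : Fin N → Cn b) (R : ℝ)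
  (Rel : G → Cn (b + k) → Cn (b + k) → Prop) (P : Set (Cn b) → TriK b k → Prop) (Φ : Cn b → ℝ)
  (Hf : Cn b → Matrix (Fin k) (Fin k) ℂ) (C : ℝ)
  (H : Cn (b + k) → Matrix (Fin (b + k)) (Fin (b + k)) ℂ), FEtK c R Rel P Φ Hf C H →
  ∀ κ, IsPUE (tubeK k (Bd c 2)) Rel κ → ∀ (M : ℕ) (W : Cn (b + k) → ℝ),
  Wt (tubeK k (Bd c 2)) Rel M W →
  (∀ x ∈ tubeK k (Bd c 2), ∀ v, lev Φ (base x) (base v) ≤ - lev (fun y => Real.log (W y)) x v) →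
  ∀ f : Cn b → ℂ, ContDiffOn ℝ ∞ f (Bd c 2) →
  Sec (tubeK k (Bd c 2)) Rel M (fun x => f (base x)) →
  (∀ z ∈ Bd c 2, 0 ≤ qdb Φ f z ∧ ((∀ j, cdb j f z = 0) → qdb Φ f z = 0)) ∧
  ContinuousOn (qdb Φ f) (Bd c 2) ∧
  ∃ g : Cn (b + k) → ℂ, Sec (tubeK k (Bd c 2)) Rel M g ∧
    DifferentiableOn ℂ g (tubeK k (Bd c 2)) ∧
    nsE (tubeK k (Bd c 2)) κ W (fun x => f (base x) - g x) ≤
      ∫ x in tubeK k (Bd c 2), κ x * W x * qdb Φ f (base x)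

/-- XLIMK. A section which does not vanish over `z₀`. USES: GFINK, MZK, BSUMK, SECWK, LOCZK, SONEK, ETAK,
UESTK, PUE2, NONI, LCPT. Adapt `Helper19/SP/XLIM.lean`.
PROOF. `z₀ ∈ ball (c i) 2`. `n, s` (`GFINK`), `r₀` (`LOCZK`), `r₁ = r₀/2`, `χ` a cut-off; `r₂` from `SONEK` (independent of the
weight), `η, K, r₃` from `ETAK` for this `r₂`; `M + 1 := M₀ m` with `M ≥ K + 1`. `f := bsumK (M+1) χ`,
`W_ε := exp(-M Φ - η ε)` (`SECWK`). `lev Φ ≤ - lev log W_ε` since `M lev Φ + lev η ≥ (M - K) lev Φ`. `UESTK`: `g_ε`,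
`nsE_{W_ε} (f - g_ε) ≤ ∫ κ W_ε qdb ≤ A`: where `qdb ≠ 0` all images are at distance `≥ r₂` from `z₀`, so `η ε ≥ - K`,
`W_ε ≤ exp(-M Φ + K)`. `W' := exp(-M Φ) ≤ W_ε`, so `nsE_{W'} g_ε ≤ 2 nsE_{W'} f + 2A`; `ε = 1/(j+2)`, `LCPT`: `g_ε → g`. If
`g (ptK z₀ 0) = 0`: `|f(base x) - g_ε x| ≥ c > 0` on `prodK (ball z₀ r) (ball 0 r)` for the `ε` of the subsequence, small,
`κ ≥ c'` there (`PUE2` with `C = {ptK z₀ 0}`), so by Fubini (`ptL`; the measure of `prodK`) `A ≥ c'' ∫_{ball z₀ r} exp(-η ε) ≥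
c'' ∫ (K(‖z - z₀‖² + ε²))^(-b)`, unbounded (`NONI`): contradiction. -/
def S_XLIMK : Prop := ∀ {b k N : ℕ} {G : Type u} [Group G] (c : Fin N → Cn b) (R : ℝ)
  (Rel : G → Cn (b + k) → Cn (b + k) → Prop) (P : Set (Cn b) → TriK b k → Prop) (Φ : Cn b → ℝ)
  (Hf : Cn b → Matrix (Fin k) (Fin k) ℂ) (C : ℝ)
  (H : Cn (b + k) → Matrix (Fin (b + k)) (Fin (b + k)) ℂ), FEtK c R Rel P Φ Hf C H →
  DiscK c P → ∀ z₀ ∈ Bd c 2, ∃ (M : ℕ) (g : Cn (b + k) → ℂ), 1 ≤ M ∧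
    Sec (tubeK k (Bd c 2)) Rel M g ∧ DifferentiableOn ℂ g (tubeK k (Bd c 2)) ∧ g (ptK z₀ 0) ≠ 0

/-- FCONK. Holomorphic sections are constant on the fibres. USES: FIBTK. Adapt `Helper97/SP/FCON.lean`.
PROOF. `z ∈ ball (c i) 2`, `t_l` from `FIBTK` at `z`: on a small ball `U ∋ z`, `PBK c P U t_l`; by `ofP` the map
`ptK y w ↦ ptK y (w + (t_l).β y)` is an arrow, its Jacobian determinant is `1` (block triangular), so
`g (ptK z w) = g (ptK z (w + (t_l).β z))` (`Sec`). The entire function `w ↦ g (ptK z w)` of `ℂᵏ` has `2k` periods which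
are linearly independent over `ℝ`, so a real basis of `ℂᵏ`: it is bounded (every `w` is congruent to a point of a
bounded set) and constant (Liouville: `Differentiable.apply_eq_apply_of_bounded`). -/
def S_FCONK : Prop := ∀ {b k N : ℕ} {G : Type u} [Group G] (c : Fin N → Cn b) (R : ℝ)
  (Rel : G → Cn (b + k) → Cn (b + k) → Prop) (P : Set (Cn b) → TriK b k → Prop) (Φ : Cn b → ℝ)
  (Hf : Cn b → Matrix (Fin k) (Fin k) ℂ) (C : ℝ)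
  (H : Cn (b + k) → Matrix (Fin (b + k)) (Fin (b + k)) ℂ), FEtK c R Rel P Φ Hf C H →
  DiscK c P → ∀ (M : ℕ) (g : Cn (b + k) → ℂ), Sec (tubeK k (Bd c 2)) Rel M g →
  DifferentiableOn ℂ g (tubeK k (Bd c 2)) → ∀ z ∈ Bd c 2, ∀ w w' : Cn k, g (ptK z w) = g (ptK z w')

/-- SECTK. One weight for all points. USES: XLIMK, FCONK. Adapt `Helper37/SP/SECT.lean`.
PROOF. For `z₀` in the compact set `⋃ closedBall (c i) 1` take `(M, g)` from `XLIMK`; `g (ptK z w) = g (ptK z 0) ≠ 0` for `z`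
near `z₀` and all `w` (`FCONK`, continuity). Finitely many such neighbourhoods cover; `M := ` product of the
weights, powers. -/
def S_SECTK : Prop := ∀ {b k N : ℕ} {G : Type u} [Group G] (c : Fin N → Cn b) (R : ℝ)
  (Rel : G → Cn (b + k) → Cn (b + k) → Prop) (P : Set (Cn b) → TriK b k → Prop) (Φ : Cn b → ℝ)
  (Hf : Cn b → Matrix (Fin k) (Fin k) ℂ) (C : ℝ)
  (H : Cn (b + k) → Matrix (Fin (b + k)) (Fin (b + k)) ℂ), FEtK c R Rel P Φ Hf C H →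
  DiscK c P → ∃ M : ℕ, 1 ≤ M ∧ ∀ z ∈ Bd c 1, ∃ g : Cn (b + k) → ℂ,
    Sec (tubeK k (Bd c 2)) Rel M g ∧ DifferentiableOn ℂ g (tubeK k (Bd c 2)) ∧
    ∀ w : Cn k, g (ptK z w) ≠ 0

/-- BACKK. From sections over `T` to canonical forms on `M`. USES: `S_PARBK` (Helper95/RK/GoalsB.lean) or the
general lemmas of `Helper9/RK/ParK.lean` (`transN`, `arrN`). Adapt `Helper9/SP/BACK.lean`.
PROOF. For `p : M` choose (`LMapK.cov`) `γ_p`, `y_p ∈ tubeK k (Bd c 1)` with `γ_p • p = E y_p` and put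
`f p := g y_p * ((jac E y_p)⁻¹ * jac (γ_p •) p) ^ m`. CLAIM: the value is the same for any `γ`, `y ∈ tubeK k (Bd c 2)` with
`γ • p = E y`: then `γ γ_p⁻¹ • E y_p = E y`, the local arrow `τ` (`arrN`) satisfies `E ∘ τ = (γ γ_p⁻¹) • E` near `y_p`,
`τ y_p = y`: `jac E y det Dτ = jac (γ γ_p⁻¹) (E y_p) jac E y_p` and `g y_p = g y (det Dτ)^m`; chain rule for `jac`.
So `f` is `G`-invariant (`InvForm`). `IsPluriForm`: for `ψ : V → M` holomorphic and `z₀ ∈ V`: let `γ • ψ z₀ = E y₀`; if `E` has local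
inverse `ε` near `E y₀`, `ε ∘ (γ • ψ) =: σ` is holomorphic near `z₀`, `γ • ψ z = E (σ z)`, so
`f (ψ z) jac ψ z ^ m = g (σ z) ((jac E (σ z))⁻¹ jac (γ •) (ψ z) jac ψ z) ^ m = g (σ z) (det Dσ z) ^ m`: holomorphic. -/
def S_BACKK : Prop := ∀ {b k N : ℕ} {G : Type u} {M : Type v} [Group G] [MulAction G M]
  [TopologicalSpace M] [T2Space M] [ChartedSpace (Fin (b + k) → ℂ) M]
  [IsManifold 𝓘(ℂ, Fin (b + k) → ℂ) ω M] {h q : M → Matrix (Fin (b + k)) (Fin (b + k)) ℂ}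
  {v : M → ℝ}, DataK b k G M h v → ∀ (c : Fin N → Cn b) (R : ℝ) (E : Cn (b + k) → M)
  (Φ : Cn b → ℝ) (Hf : Cn b → Matrix (Fin k) (Fin k) ℂ),
  LMapK G v q c R E Φ Hf → 2 ≤ R → ∀ (m : ℕ) (g : Cn (b + k) → ℂ),
  Sec (tubeK k (Bd c 2)) (RelT (G := G) (tubeK k (Bd c 2)) E) m g →
  DifferentiableOn ℂ g (tubeK k (Bd c 2)) →
  ∃ f : M → ℂ, InvForm (b + k) (⊤ : Subgroup G) m f ∧
    ∀ y ∈ tubeK k (Bd c 2), g y ≠ 0 → f (E y) ≠ 0

/-- The periods and the polarization, for every invariant Kähler metric (the conclusion of Section E'). -/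
def S_PERA : Prop := ∀ {b k N : ℕ} {G : Type u} [Group G] (c : Fin N → Cn b) (R : ℝ)
  (Rel : G → Cn (b + k) → Cn (b + k) → Prop) (P : Set (Cn b) → TriK b k → Prop) (Φ : Cn b → ℝ)
  (Hf : Cn b → Matrix (Fin k) (Fin k) ℂ) (C : ℝ)
  (H : Cn (b + k) → Matrix (Fin (b + k)) (Fin (b + k)) ℂ), FEtK c R Rel P Φ Hf C H →
  ∃ (lam : Fin (2 * k) → Cn b → Cn k) (Om : Fin N → Matrix (Fin (2 * k)) (Fin (2 * k)) ℝ),
    PerK c P lam ∧ PolK c P lam Om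

/-- MAINRK. The theorem for `DataK`. USES: `S_GEOK`, PERA, DISFK, SECTK, BACKK. Adapt
`Helper87/SP/MAINSP.lean`.
PROOF. `S_GEOK`; `PERA`, `DISFK`: `DiscK`; `SECTK`: weight `m`. For `p : M`: `γ • p = E (ptK z w)`, `z ∈ Bd c 1`; `g` nonzero at
`ptK z w`, `f` from `BACKK` nonzero at `E (ptK z w) = γ • p`, and by invariance at `p`. (`2 ≤ R` from `AFolK.Rge`, `Cge`.) -/
def S_MAINRK : Prop := ∀ {b k : ℕ} {G : Type u} {M : Type v} [Group G] [MulAction G M]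
  [TopologicalSpace M] [T2Space M] [ConnectedSpace M] [ChartedSpace (Fin (b + k) → ℂ) M]
  [IsManifold 𝓘(ℂ, Fin (b + k) → ℂ) ω M] {h q : M → Matrix (Fin (b + k)) (Fin (b + k)) ℂ}
  {v : M → ℝ}, 0 < b → DataK b k G M h v → FlatFol b k G M q v → OrbSemiample (b + k) G M

end Pool.Agent.Helper45.RK
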