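import Pool.Agent.Helper95.RK.Basics
import Pool.Agent.Helper45.SP.GoalsFG

/-!
# Local groups of maps `(z, w) ↦ (g z, A z w + β z)`: definitions (sections F', G' of
`Helper95/RK/paper.md`)

All statements of `Helper45/SP/GoalsF.lean` and some of `Helper45/SP/GoalsG.lean` involve only the base
maps `g`; they are used for the local group `bs '' A` of the base maps.
-/

open Complex Metric Set Filter Topology
open scoped ContDiff ComplexConjugate Matrix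

namespace Pool.Agent.Helper45.RK

open Pool.Agent.Helper95.Lin Pool.Agent.Helper10.SP Pool.Agent.Helper95.RK Pool.Agent.Helper45.SP

variable {b k : ℕ}

/-- The base map. -/
def bs (t : TriK b k) : Tri b := ⟨t.g, fun _ => 1, fun _ => 0⟩

@[simp] theorem bs_g (t : TriK b k) : (bs t).g = t.g := rfl

/-- A local group of holomorphic maps near `z₀` in which all elements are defined on the ball of
radius `r`: products and inverses of elements near the identity are elements, as germs at `z₀`. -/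
structure LGrpK (z₀ : Cn b) (r : ℝ) (A : Set (TriK b k)) : Prop where
  pos : 0 < r
  holo : ∀ t ∈ A, t.HolOn (ball z₀ r)
  det : ∀ t ∈ A, ∀ z ∈ ball z₀ r, (t.A z).det ≠ 0
  bdd : ∃ C : ℝ, ∀ t ∈ A, ∀ z ∈ ball z₀ r, ‖t.g z‖ ≤ C
  one : ∃ t ∈ A, t.EqOn TriK.one (ball z₀ r)
  mul : ∃ η > 0, ∀ t ∈ A, ∀ s ∈ A, Near z₀ (r / 2) t.g η → Near z₀ (r / 2) s.g η →
    ∃ u ∈ A, ∃ d > 0, u.EqOn (t.comp s) (ball z₀ d)
  inv : ∃ η > 0, ∀ t ∈ A, Near z₀ (r / 2) t.g η →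
    ∃ u ∈ A, ∃ d > 0, (u.comp t).EqOn TriK.one (ball z₀ d)

/-- A local group with the properties which come from the proper action on the total space. -/
structure PGrpK (z₀ : Cn b) (r : ℝ) (A : Set (TriK b k)) : Prop extends LGrpK z₀ r A where
  abd : ∃ C : ℝ, 1 ≤ C ∧ ∀ t ∈ A, ∀ z ∈ ball z₀ r, MB (t.A z) C ∧ MB (t.A z)⁻¹ C
  lip : ∃ η > 0, ∃ C : ℝ, 0 ≤ C ∧ ∀ t ∈ A, ∀ s ≤ η, Near z₀ (r / 2) t.g s → ∀ ε, 0 ≤ ε →
    MB (t.A z₀ - 1) ε → ∀ z ∈ ball z₀ (r / 3), MB (t.A z - 1) (C * (ε + s))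
  grow : ∃ C : ℝ, 0 ≤ C ∧ ∀ t ∈ A, ∀ z ∈ ball z₀ r, ‖t.β z‖ ≤ C * (1 + ‖t.β z₀‖)
  fin : ∀ R : ℝ, ∃ η > 0, ∀ t ∈ A, Near z₀ (r / 2) t.g η → ‖t.β z₀‖ ≤ R →
    ∀ z ∈ ball z₀ r, t.g z = z

/-- `u` is a product of `t` and `s` as a germ at `z₀`. -/
def IsMulK (z₀ : Cn b) (u t s : TriK b k) : Prop := ∃ d > 0, u.EqOn (t.comp s) (ball z₀ d)

/-- `c` is the commutator of `t` and `s` as a germ: `c s t = t s`. -/
def IsCommK (z₀ : Cn b) (c t s : TriK b k) : Prop :=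
  ∃ d > 0, (c.comp (s.comp t)).EqOn (t.comp s) (ball z₀ d)

/-- `u l`, `l ≤ J`, are the powers of `t`. -/
structure PowersK (z₀ : Cn b) (r : ℝ) (A : Set (TriK b k)) (t : TriK b k) (J : ℕ)
    (u : ℕ → TriK b k) : Prop where
  mem : ∀ l, u l ∈ A
  zero : (u 0).EqOn TriK.one (ball z₀ r)
  succ : ∀ l < J, IsMulK z₀ (u (l + 1)) t (u l)

theorem bs_eqOn {t s : TriK b k} {U : Set (Cn b)} (h : t.EqOn s U) : (bs t).EqOn (bs s) U :=
  fun z hz => ⟨(h z hz).1, rfl, rfl⟩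

theorem bs_comp (t s : TriK b k) (U : Set (Cn b)) :
    (bs (t.comp s)).EqOn ((bs t).comp (bs s)) U := by
  intro z _
  refine ⟨rfl, ?_, ?_⟩ <;> simp [bs, Tri.comp]

theorem bs_one (U : Set (Cn b)) : (bs (TriK.one : TriK b k)).EqOn Tri.one U :=
  fun _ _ => ⟨rfl, rfl, rfl⟩

theorem eqOn_trans {t s u : Tri b} {U : Set (Cn b)} (h : t.EqOn s U) (h' : s.EqOn u U) :
    t.EqOn u U := fun z hz =>
  ⟨(h z hz).1.trans (h' z hz).1, (h z hz).2.1.trans (h' z hz).2.1,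
    (h z hz).2.2.trans (h' z hz).2.2⟩

theorem eqOn_symm {t s : Tri b} {U : Set (Cn b)} (h : t.EqOn s U) : s.EqOn t U := fun z hz =>
  ⟨(h z hz).1.symm, (h z hz).2.1.symm, (h z hz).2.2.symm⟩

theorem IsMulK.bs {z₀ : Cn b} {u t s : TriK b k} (h : IsMulK z₀ u t s) :
    IsMul z₀ (bs u) (bs t) (bs s) := by
  obtain ⟨d, hd, he⟩ := h
  exact ⟨d, hd, eqOn_trans (bs_eqOn he) (bs_comp t s _)⟩

theorem IsCommK.bs {z₀ : Cn b} {c t s : TriK b k} (h : IsCommK z₀ c t s) :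
    IsComm z₀ (bs c) (bs t) (bs s) := by
  obtain ⟨d, hd, he⟩ := h
  refine ⟨d, hd, ?_⟩
  refine eqOn_trans ?_ (eqOn_trans (bs_eqOn he) (bs_comp t s _))
  intro z hz
  refine ⟨rfl, ?_, ?_⟩ <;> simp [RK.bs, Tri.comp]

theorem PowersK.bs {z₀ : Cn b} {r : ℝ} {A : Set (TriK b k)} {t : TriK b k} {J : ℕ}
    {u : ℕ → TriK b k} (h : PowersK z₀ r A t J u) :
    Powers z₀ r (bs '' A) (bs t) J fun l => bs (u l) :=
  ⟨fun l => ⟨u l, h.mem l, rfl⟩, eqOn_trans (bs_eqOn h.zero) (bs_one _),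
    fun l hl => (h.succ l hl).bs⟩

/-- The base maps form a local group. -/
theorem LGrpK.lgrp {z₀ : Cn b} {r : ℝ} {A : Set (TriK b k)} (h : LGrpK z₀ r A) :
    LGrp z₀ r (bs '' A) := by
  refine ⟨h.pos, ?_, ?_, ?_, ?_, ?_, ?_, ?_, ?_⟩
  · rintro _ ⟨t, ht, rfl⟩
    exact (h.holo t ht).1
  · rintro _ ⟨t, ht, rfl⟩
    exact differentiableOn_const _
  · rintro _ ⟨t, ht, rfl⟩
    exact differentiableOn_const _
  · rintro _ ⟨t, ht, rfl⟩ z _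
    exact one_ne_zero
  · obtain ⟨C, hC⟩ := h.bdd
    refine ⟨C, ?_⟩
    rintro _ ⟨t, ht, rfl⟩
    exact hC t ht
  · obtain ⟨t, ht, he⟩ := h.one
    exact ⟨bs t, ⟨t, ht, rfl⟩, eqOn_trans (bs_eqOn he) (bs_one _)⟩
  · obtain ⟨η, hη, hm⟩ := h.mul
    refine ⟨η, hη, ?_⟩
    rintro _ ⟨t, ht, rfl⟩ _ ⟨s, hs, rfl⟩ h1 h2
    obtain ⟨u, hu, hm'⟩ := hm t ht s hs h1 h2
    exact ⟨bs u, ⟨u, hu, rfl⟩, IsMulK.bs hm'⟩
  · obtain ⟨η, hη, hm⟩ := h.inv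
    refine ⟨η, hη, ?_⟩
    rintro _ ⟨t, ht, rfl⟩ h1
    obtain ⟨u, hu, d, hd, he⟩ := hm t ht h1
    refine ⟨bs u, ⟨u, hu, rfl⟩, d, hd, ?_⟩
    exact eqOn_trans (eqOn_symm (bs_comp u t _)) (eqOn_trans (bs_eqOn he) (bs_one _))

end Pool.Agent.Helper45.RK
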